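import Pool.Agent.helper31.JBX.Mn
import Pool.Agent.helper31.JBX.Dn

/-!
# MP_f18503_lc: one polynomial-time algorithm for judicious bipartitions of all graphs, which is optimal
for at least one third of all numbers `m` of edges

`gg m` is the least `t` such that every graph with `m` edges has a bipartition with at most `t` edges
inside each class.  With `s = (k + 1) (2 k + 3) - m`, the algorithm finds a bipartition with at most
`bdk k m = max (⌊m / 4⌋, k (k + 1) / 2, (k + 1) (k + 2) / 2 - s)` edges inside each class, for every `k` (the best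
one is given by `k (2 k + 1) ≤ m < (k + 1) (2 k + 3)`), and this is `gg m` for at least one third of all `m`.
-/

set_option autoImplicit false

namespace Pool.Agent.Results.MP_f18503_lc.JudiciousAllM

open Pool.Agent.helper81.JB Pool.Agent.helper31.JBX

theorem result :
    (∃ f : List Bool → List Bool,
      Nonempty (Turing.TM2ComputableInPolyTime (id : List Bool → List Bool)
        (id : List Bool → List Bool) f) ∧
      ∀ (n : ℕ) (G : SimpleGraph (Fin n)) (A : Fin n → Fin n → Bool),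
        (∀ i j, A i j = true ↔ G.Adj i j) →
        ∃ X : Finset (Fin n),
          f ((List.finRange n).flatMap fun i => (List.finRange n).map fun j => A i j) =
            (List.finRange n).map (fun v => decide (v ∈ X)) ∧
          (∀ k : ℕ, eIn G X ≤ bdk k G.edgeSet.ncard ∧ eIn G Xᶜ ≤ bdk k G.edgeSet.ncard) ∧
          (Opt G.edgeSet.ncard → eIn G X ≤ gg G.edgeSet.ncard ∧ eIn G Xᶜ ≤ gg G.edgeSet.ncard)) ∧
    (∀ K : ℕ, K * (2 * K + 1) ≤ 3 * {m : ℕ | m < K * (2 * K + 1) ∧ Opt m}.ncard) ∧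
    (∀ k m : ℕ, gg m ≤ bdk k m) ∧
    (∀ k r : ℕ, r ≤ k + 3 → r ≤ 4 * k + 2 → gg (k * (2 * k + 1) + r) = k * (k + 1) / 2) ∧
    (∀ k s : ℕ, 1 ≤ k → 3 * s ≤ k + 3 → gg (k * (2 * k + 1) - s) = k * (k + 1) / 2 - s) ∧
    (∀ k u m : ℕ, u ^ 2 ≤ m → bdk k m ≤ u ^ 2 / 4 → gg m = u ^ 2 / 4) ∧
    (∀ k r : ℕ, k ≤ r → 3 * r ≤ 11 * k + 8 →
      4 * gg (k * (2 * k + 1) + r) ≤ k * (2 * k + 1) + r) := by
  refine ⟨?_, third, gg_le, fun k r h1 h2 => gg_rr h1 h2, fun k s h1 h2 => gg_ss h1 h2,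
    fun k u m h1 h2 => gg_sq h1 h2, fun k r h1 h2 => gg_mid h1 h2⟩
  obtain ⟨f, hf, H⟩ := Pool.Agent.helper31.JBX.algorithm
  refine ⟨f, hf, fun n G A hA => ?_⟩
  obtain ⟨X, h1, h2⟩ := H n G A hA
  refine ⟨X, h1, h2, fun hO => ?_⟩
  obtain ⟨k, hk⟩ := opt_gg hO
  rw [← hk]
  exact h2 k

end Pool.Agent.Results.MP_f18503_lc.JudiciousAllM
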